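import Mathlib

set_option autoImplicit false
set_option maxHeartbeats 400000

namespace Pool.Agent.Results.MP_472d46_al.Null

/-- o-conjugacy, with conjugators in `S` with an identity adjoined. -/
def OConj {S : Type} [Semigroup S] (a b : S) : Prop :=
  ∃ g h : WithOne S, (a : WithOne S) * g = g * b ∧ (b : WithOne S) * h = h * a

inductive S0 : Type
  | pw : ℕ → S0
  | lz : (n : ℕ) → ZMod (n + 2) → S0

open S0

def mul : S0 → S0 → S0
  | pw i, pw j => pw (i + j + 1)
  | pw i, lz n x => lz n (x + (i + 1 : ℕ))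
  | lz n x, _ => lz n x

instance : Semigroup S0 where
  mul := mul
  mul_assoc a b c := by
    change mul (mul a b) c = mul a (mul b c)
    rcases a with i | ⟨n, x⟩ <;> rcases b with j | ⟨m, y⟩ <;> rcases c with k | ⟨l, z⟩ <;>
      simp only [mul]
    · congr 1; ring
    · congr 1; push_cast; ring

theorem mul_def (a b : S0) : a * b = mul a b := rfl

theorem fix (a : S0) (ha : a ≠ pw 0) : ∃ n x, a * lz n x = lz n x := by
  rcases a with (_ | i) | ⟨n, x⟩
  · exact absurd rfl ha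
  · exact ⟨i, 0, by rw [mul_def, mul, zero_add]; exact congrArg _ (ZMod.natCast_self (i + 2))⟩
  · exact ⟨n, x, rfl⟩

theorem conj_of (a b : S0) (ha : a ≠ pw 0) (hb : b ≠ pw 0) : OConj a b := by
  obtain ⟨n, x, h1⟩ := fix a ha
  obtain ⟨m, y, h2⟩ := fix b hb
  exact ⟨(lz n x : S0), (lz m y : S0), by rw [← WithOne.coe_mul, h1]; rfl,
    by rw [← WithOne.coe_mul, h2]; rfl⟩

theorem only (b : S0) (g : WithOne S0) (h : ((pw 0 : S0) : WithOne S0) * g = g * b) : b = pw 0 := by
  induction g using WithOne.recOneCoe with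
  | one => simpa using h.symm
  | coe g =>
    rw [← WithOne.coe_mul, ← WithOne.coe_mul, WithOne.coe_inj, mul_def, mul_def] at h
    rcases g with i | ⟨n, x⟩ <;> rcases b with j | ⟨m, y⟩ <;> simp only [mul] at h
    · obtain rfl : j = 0 := by injection h; omega
      rfl
    · cases h
    all_goals
      exfalso
      have : Fact (1 < n + 2) := ⟨by omega⟩
      simp at h

theorem conj_iff (a b : S0) : OConj a b ↔ (a = pw 0 ↔ b = pw 0) := by
  constructor
  · rintro ⟨g, h, h1, h2⟩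
    exact ⟨fun k => only b g (k ▸ h1), fun k => only a h (k ▸ h2)⟩
  · intro h
    by_cases ha : a = pw 0
    · exact ⟨1, 1, by simp [ha, h.1 ha], by simp [ha, h.1 ha]⟩
    · exact conj_of a b ha fun k => ha (h.2 k)

theorem mul_ne (a b : S0) : a * b ≠ pw 0 := by
  rcases a with i | ⟨n, x⟩ <;> rcases b with j | ⟨m, y⟩ <;> simp [mul_def, mul]

def c0 : Con S0 :=
  ⟨⟨OConj, fun a => (conj_iff a a).2 Iff.rfl, fun h => (conj_iff _ _).2 ((conj_iff _ _).1 h).symm,
    fun h h' => (conj_iff _ _).2 (((conj_iff _ _).1 h).trans ((conj_iff _ _).1 h'))⟩,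
    fun _ _ => conj_of _ _ (mul_ne _ _) (mul_ne _ _)⟩

theorem result : ∃ (S : Type) (_ : Semigroup S), (¬ ∃ e : S, ∀ x, e * x = x ∧ x * e = x) ∧
    ∃ c : Con S, (∀ a b, c a b ↔ OConj a b) ∧ ¬ IsCancelMul c.Quotient := by
  refine ⟨S0, inferInstance, fun ⟨e, he⟩ => mul_ne _ _ (he (pw 0)).1, c0, fun _ _ => Iff.rfl,
    fun h => ?_⟩
  have h1 : ((pw 0 : S0) : c0.Quotient) = ((pw 1 : S0) : c0.Quotient) :=
    mul_left_cancel (a := ((pw 0 : S0) : c0.Quotient))
      ((Con.eq c0).2 (conj_of (pw 0 * pw 0) (pw 0 * pw 1) (mul_ne _ _) (mul_ne _ _)))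
  simpa using (conj_iff _ _).1 ((Con.eq c0).1 h1)

end Pool.Agent.Results.MP_472d46_al.Null
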